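import Pool.Agent.Helper236.Normal

namespace Pool.Agent.Results.MP_4e9c6d_co.Main

open Pool.Agent.Helper236

/-- `M` is a tangential `k`-block over the finite field `F`: it is finite, simple and representable
over `F`, its critical exponent is larger than `k`, and `M / G` has critical exponent at most `k`
for every non-empty flat `G`. -/
def IsTangentialBlock (F : Type) [Field F] (k : ℕ) {α : Type} (M : Matroid α) : Prop :=
  M.Finite ∧ IsSimple M ∧ Representable F M ∧ (k : ℕ∞) < critExp M (Nat.card F) ∧
    ∀ G, M.IsFlat G → G.Nonempty → critExp (M.contract G) (Nat.card F) ≤ k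

theorem result (F : Type) [Field F] [Finite F] (k : ℕ) (_hk : 1 ≤ k) {α : Type} (M : Matroid α)
    (hM : IsTangentialBlock F k M) (hH : ∃ H, IsModularHyperplane M H) :
    IsNormal (Nat.card F) k M := by
  obtain ⟨hfin, hs, ⟨n, v, hv⟩, hblock, htan⟩ := hM
  obtain ⟨H, hH⟩ := hH
  have hrep : Rep F M v := hv
  refine isNormal_of_modular hrep hs ((lt_critExp_iff hrep k).1 hblock) ?_ hH
  intro e he
  have hcl : M.closure {e} = {e} := by
    apply Set.Subset.antisymm _ (Set.singleton_subset_iff.2 (M.mem_closure_self e he))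
    intro x hx
    have hxE : x ∈ M.E := M.closure_subset_ground _ hx
    rw [hrep.mem_closure_iff (Set.singleton_subset_iff.2 he) hxE, Set.image_singleton,
      Submodule.mem_span_singleton] at hx
    obtain ⟨c, hc⟩ := hx
    exact hrep.eq_of_smul hs hxE he hc.symm
  have hflat : M.IsFlat {e} := by
    rw [Matroid.isFlat_iff_closure_eq, hcl]
  have h1 := htan {e} hflat (Set.singleton_nonempty e)
  have h2 : M.contract {e} = (M.contract {e}).delete ∅ := by
    rw [Matroid.delete_empty]
  rw [h2, minor_critExp_le_iff hrep k {e} ∅ (Set.singleton_subset_iff.2 he)] at h1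
  obtain ⟨f, -, hf⟩ := h1
  refine ⟨f, fun x hx hxe => hf x ?_⟩
  exact ⟨⟨hx, by simpa using hxe⟩, by simp⟩

end Pool.Agent.Results.MP_4e9c6d_co.Main
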